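import Mathlib

set_option autoImplicit false

namespace Pool.Agent.Lib.MP_fbbbeb_an

open scoped ContDiff RealInnerProductSpace

/-- Euclidean three-space -/
abbrev E : Type := EuclideanSpace ℝ (Fin 3)

/-- divergence of a vector field -/
noncomputable def dvg (v : E → E) (x : E) : ℝ :=
  LinearMap.trace ℝ E (fderiv ℝ v x : E →L[ℝ] E)

/-- admissible symmetry class: for every smooth invariant field, the divergence of the transport
term is orthogonal on every sphere to all traceless quadratic forms -/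
def Admissible (M : Set (E ≃ₗᵢ[ℝ] E)) : Prop :=
  ∀ v : E → E, ContDiff ℝ ∞ v → (∀ O ∈ M, ∀ x, v (O x) = O (v x)) →
    ∀ r : ℝ, 0 < r → ∀ Q : E →ₗ[ℝ] E, LinearMap.trace ℝ E Q = 0 →
      ∫ y : Metric.sphere (0 : E) 1, dvg (fun x => fderiv ℝ v x (v x)) (r • (y : E)) *
        ⟪(y : E), Q y⟫ ∂(MeasureTheory.volume : MeasureTheory.Measure E).toSphere = 0

/-- scale-invariant, `M`-invariant solution of the Euler equations, smooth off the origin,
on the time set `I` -/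
def IsSol (M : Set (E ≃ₗᵢ[ℝ] E)) (I : Set ℝ) (u : ℝ → E → E) (p : ℝ → E → ℝ) : Prop :=
  ContDiffOn ℝ ∞ (fun z : ℝ × E => u z.1 z.2) (I ×ˢ {0}ᶜ) ∧
  ContDiffOn ℝ ∞ (fun z : ℝ × E => p z.1 z.2) (I ×ˢ {0}ᶜ) ∧
  ∀ t ∈ I, ∀ x : E, x ≠ 0 →
    deriv (fun s => u s x) t + fderiv ℝ (u t) x (u t x) + gradient (p t) x = 0 ∧
    dvg (u t) x = 0 ∧ (∀ l : ℝ, 0 < l → u t (l • x) = l • u t x) ∧
    ∀ O ∈ M, u t (O x) = O (u t x)

end Pool.Agent.Lib.MP_fbbbeb_an
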