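import Mathlib
import Pool.Agent.Lib.MP_fbbbeb_an.Defs

set_option autoImplicit false

namespace Pool.Agent.Lib.MP_fbbbeb_an

open scoped ContDiff RealInnerProductSpace Topology
open Set Filter Metric MeasureTheory

theorem no_line {M : Set (E ≃ₗᵢ[ℝ] E)} (hM : Admissible M) (n : E) (hn : n ≠ 0)
    (hO : ∀ O ∈ M, O n = n ∨ O n = -n) : False := by
  set e : E := ‖n‖⁻¹ • n with he
  have he1 : ‖e‖ = 1 := by simp [he, norm_smul, hn]
  have hee : ⟪e, e⟫ = 1 := by rw [real_inner_self_eq_norm_sq, he1]; norm_num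
  have hOe : ∀ O ∈ M, O e = e ∨ O e = -e := by
    intro O h
    rcases hO O h with h | h
    · left; simp [he, h]
    · right; simp [he, h]
  let v : E → E := fun x => Real.sin ⟪e, x⟫ • e
  have hl : ∀ x, HasFDerivAt (fun x : E => ⟪e, x⟫) (innerSL ℝ e) x := fun x =>
    (innerSL ℝ e).hasFDerivAt
  have hv : ContDiff ℝ ∞ v :=
    (Real.contDiff_sin.comp (innerSL ℝ e).contDiff).smul contDiff_const
  have hinv : ∀ O ∈ M, ∀ x, v (O x) = O (v x) := by
    intro O h x
    have h1 := O.inner_map_map e x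
    rcases hOe O h with h | h
    · rw [h] at h1; simp only [v, h1, map_smul, h]
    · rw [h, inner_neg_left] at h1
      have : ⟪e, O x⟫ = -⟪e, x⟫ := by linarith
      simp only [v, this, map_smul, h, Real.sin_neg, neg_smul, smul_neg]
  have hF : (fun x => fderiv ℝ v x (v x)) =
      fun x : E => (Real.sin ⟪e, x⟫ * Real.cos ⟪e, x⟫) • e := by
    funext x
    rw [((hl x).sin.smul_const e).fderiv]
    simp [v, he1, smul_smul]
  have hd : ∀ x, dvg (fun x => fderiv ℝ v x (v x)) x = Real.cos (2 * ⟪e, x⟫) := by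
    intro x
    rw [hF, dvg, (((hl x).sin.fun_mul (hl x).cos).smul_const e).fderiv]
    erw [LinearMap.trace_smulRight]
    simp [he1, Real.cos_two_mul']
    ring
  let Q : E →ₗ[ℝ] E := (1 / 3 : ℝ) • LinearMap.id - (innerₗ E e).smulRight e
  have hQ : LinearMap.trace ℝ E Q = 0 := by
    simp [Q, LinearMap.trace_smulRight, he1]
  have s3 : (√3 : ℝ) ^ 2 = 3 := Real.sq_sqrt (by norm_num)
  have s1 : (1:ℝ) < √3 := by rw [Real.lt_sqrt (by norm_num)]; norm_num
  have s2 : (√3 : ℝ) < 3 := by rw [Real.sqrt_lt' (by norm_num)]; norm_num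
  have hpi := Real.pi_pos
  have h0 := hM v hv hinv (√3 * Real.pi / 4) (by positivity) Q hQ
  have hint : ∀ y : sphere (0 : E) 1,
      dvg (fun x => fderiv ℝ v x (v x)) ((√3 * Real.pi / 4) • (y : E)) * ⟪(y : E), Q y⟫ =
      Real.cos (Real.pi / 2 * (√3 * |⟪e, (y : E)⟫|)) * (1 / 3 - ⟪e, (y : E)⟫ ^ 2) := by
    intro y
    have hy : ‖(y : E)‖ = 1 := by simp
    rw [hd, ← Real.cos_abs (2 * _)]
    congr 1
    · congr 1
      rw [inner_smul_right, abs_mul, abs_mul, abs_of_pos (by positivity : 0 < √3 * Real.pi / 4)]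
      simp; ring
    · simp [Q, inner_sub_right, inner_smul_right, hy, real_inner_comm, sq]
  simp only [hint] at h0
  have hcont : Continuous fun y : sphere (0 : E) 1 =>
      Real.cos (Real.pi / 2 * (√3 * |⟪e, (y : E)⟫|)) * (1 / 3 - ⟪e, (y : E)⟫ ^ 2) := by
    fun_prop
  have hnn : 0 ≤ fun y : sphere (0 : E) 1 =>
      Real.cos (Real.pi / 2 * (√3 * |⟪e, (y : E)⟫|)) * (1 / 3 - ⟪e, (y : E)⟫ ^ 2) := by
    intro y
    have hy : ‖(y : E)‖ = 1 := by simp
    have hz : |⟪e, (y : E)⟫| ≤ 1 := by simpa [he1, hy] using abs_real_inner_le_norm e y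
    simp only [Pi.zero_apply]
    rw [← sq_abs]
    have a0 := abs_nonneg ⟪e, (y : E)⟫
    generalize |⟪e, (y : E)⟫| = a at *
    have e2 : (√3 * a) ^ 2 = 3 * a ^ 2 := by rw [mul_pow, s3]
    have b0 : 0 ≤ √3 * a := by positivity
    have b3 : √3 * a ≤ 3 := by nlinarith
    generalize √3 * a = b at *
    rcases le_total b 1 with hb | hb
    · exact mul_nonneg (Real.cos_nonneg_of_mem_Icc ⟨by nlinarith, by nlinarith⟩) (by nlinarith)
    · exact mul_nonneg_of_nonpos_of_nonpos
        (Real.cos_nonpos_of_pi_div_two_le_of_le (by nlinarith) (by nlinarith)) (by nlinarith)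
  have h1 := (integral_eq_zero_iff_of_nonneg hnn
    (hcont.integrable_of_hasCompactSupport (HasCompactSupport.of_compactSpace _))).1 h0
  have h2 := congrFun ((hcont.ae_eq_iff_eq _ continuous_zero).1 h1) ⟨e, by simp [he1]⟩
  simp only [hee, abs_one, mul_one, Pi.zero_apply] at h2
  have : Real.cos (Real.pi / 2 * √3) < 0 :=
    Real.cos_neg_of_pi_div_two_lt_of_lt (by nlinarith) (by nlinarith)
  nlinarith

end Pool.Agent.Lib.MP_fbbbeb_an
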