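import Mathlib

set_option autoImplicit false

namespace Pool.Agent.Lib.MP_fbbbeb_an.Pub

open scoped ContDiff RealInnerProductSpace

/-- Euclidean three-space -/
abbrev E : Type := EuclideanSpace ℝ (Fin 3)

/-- trace of a linear map -/
noncomputable def tr (Q : E →ₗ[ℝ] E) : ℝ := LinearMap.trace ℝ E Q

/-- divergence of a vector field -/
noncomputable def dvg (v : E → E) (x : E) : ℝ := tr (fderiv ℝ v x : E →L[ℝ] E)

/-- the transport term `(v·∇)v` -/
noncomputable def adv (v : E → E) (x : E) : E := fderiv ℝ v x (v x)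

/-- integral over the unit sphere against surface measure -/
noncomputable def sph (f : E → ℝ) : ℝ :=
  ∫ y : Metric.sphere (0 : E) 1, f y ∂(MeasureTheory.volume : MeasureTheory.Measure E).toSphere

/-- invariance of a field at a point -/
def Inv (M : Set (E ≃ₗᵢ[ℝ] E)) (v : E → E) (x : E) : Prop := ∀ O ∈ M, v (O x) = O (v x)

/-- admissible symmetry class: for every smooth invariant field, the divergence of the transport
term is orthogonal on every sphere to all traceless quadratic forms -/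
def Admissible (M : Set (E ≃ₗᵢ[ℝ] E)) : Prop :=
  ∀ v : E → E, ContDiff ℝ ∞ v → (∀ x, Inv M v x) →
    ∀ r : ℝ, 0 < r → ∀ Q : E →ₗ[ℝ] E, tr Q = 0 →
      sph (fun y => dvg (adv v) (r • y) * ⟪y, Q y⟫) = 0

/-- the momentum equation at time `t` and place `x` -/
def Euler (u : ℝ → E → E) (p : ℝ → E → ℝ) (t : ℝ) (x : E) : Prop :=
  deriv (fun s => u s x) t + adv (u t) x + gradient (p t) x = 0

/-- joint smoothness of velocity and pressure off the origin -/
def Smooth (I : Set ℝ) (u : ℝ → E → E) (p : ℝ → E → ℝ) : Prop :=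
  ContDiffOn ℝ ∞ (fun z : ℝ × E => u z.1 z.2) (I ×ˢ {0}ᶜ) ∧
  ContDiffOn ℝ ∞ (fun z : ℝ × E => p z.1 z.2) (I ×ˢ {0}ᶜ)

/-- scale-invariant, `M`-invariant solution of the Euler equations, smooth off the origin,
on the time set `I` -/
def IsSol (M : Set (E ≃ₗᵢ[ℝ] E)) (I : Set ℝ) (u : ℝ → E → E) (p : ℝ → E → ℝ) : Prop :=
  Smooth I u p ∧ ∀ t ∈ I, ∀ x : E, x ≠ 0 →
    Euler u p t x ∧ dvg (u t) x = 0 ∧ (∀ l : ℝ, 0 < l → u t (l • x) = l • u t x) ∧ Inv M (u t) x

end Pool.Agent.Lib.MP_fbbbeb_an.Pub
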