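import Mathlib
import Pool.Agent.Lib.MP_fbbbeb_an.Defs

set_option autoImplicit false

namespace Pool.Agent.Lib.MP_fbbbeb_an

open scoped ContDiff RealInnerProductSpace Topology
open Set Filter Metric

/-- trace of a continuous linear map -/
noncomputable def trL : (E →L[ℝ] E) →L[ℝ] ℝ :=
  LinearMap.toContinuousLinearMap ((LinearMap.trace ℝ E) ∘ₗ ContinuousLinearMap.coeLM ℝ)

theorem trL_apply (A : E →L[ℝ] E) : trL A = LinearMap.trace ℝ E (A : E →ₗ[ℝ] E) := rfl

theorem trL_mul_comm (A B : E →L[ℝ] E) : trL (A * B) = trL (B * A) :=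
  LinearMap.trace_mul_comm ℝ (A : E →ₗ[ℝ] E) (B : E →ₗ[ℝ] E)

theorem trL_one : trL 1 = 3 := by
  have : trL 1 = LinearMap.trace ℝ E 1 := rfl
  rw [this, LinearMap.trace_one]; simp

theorem ch_matrix (M : Matrix (Fin 3) (Fin 3) ℝ) (h : M.trace = 0) :
    M * M * M = ((M * M).trace / 2) • M + ((M * M * M).trace / 3) • (1 : Matrix _ _ ℝ) := by
  have h2 : M 2 2 = - M 0 0 - M 1 1 := by
    simp [Matrix.trace, Fin.sum_univ_three] at h; linarith
  ext i j
  fin_cases i <;> fin_cases j <;>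
    simp [Matrix.mul_apply, Matrix.trace, Fin.sum_univ_three, h2] <;> ring

theorem ch (A : E →L[ℝ] E) (h : trL A = 0) :
    A * A * A = (trL (A * A) / 2) • A + (trL (A * A * A) / 3) • (1 : E →L[ℝ] E) := by
  let b := (EuclideanSpace.basisFun (Fin 3) ℝ).toBasis
  let φ := LinearMap.toMatrixAlgEquiv b
  have ht : ∀ B : E →ₗ[ℝ] E, LinearMap.trace ℝ E B = (φ B).trace := fun B =>
    LinearMap.trace_eq_matrix_trace ℝ b B
  have h1 := ch_matrix (φ (A : E →ₗ[ℝ] E)) (by rw [← ht]; exact h)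
  apply ContinuousLinearMap.coe_injective
  apply φ.injective
  have e2 : trL (A * A) = (φ (A : E →ₗ[ℝ] E) * φ (A : E →ₗ[ℝ] E)).trace := by
    rw [← map_mul, ← ht]; rfl
  have e3 : trL (A * A * A) =
      (φ (A : E →ₗ[ℝ] E) * φ (A : E →ₗ[ℝ] E) * φ (A : E →ₗ[ℝ] E)).trace := by
    rw [← map_mul, ← map_mul, ← ht]; rfl
  rw [e2, e3]
  have e4 : ((A * A * A : E →L[ℝ] E) : E →ₗ[ℝ] E) =
    (A : E →ₗ[ℝ] E) * (A : E →ₗ[ℝ] E) * (A : E →ₗ[ℝ] E) := rfl
  rw [e4, map_mul, map_mul]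
  have e5 : ∀ s t : ℝ, ((s • A + t • (1 : E →L[ℝ] E) : E →L[ℝ] E) : E →ₗ[ℝ] E) =
    s • (A : E →ₗ[ℝ] E) + t • 1 := fun s t => rfl
  rw [e5, map_add, map_smul, map_smul, map_one]
  exact h1

/-- a positively homogeneous field of degree one, smooth off the origin -/
structure Hom (w : E → E) : Prop where
  zero : w 0 = 0
  smul : ∀ l : ℝ, 0 < l → ∀ x, w (l • x) = l • w x
  smooth : ContDiffOn ℝ ∞ w {0}ᶜ

theorem Hom.cda {w : E → E} (h : Hom w) {x : E} (hx : x ≠ 0) : ContDiffAt ℝ ∞ w x :=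
  h.smooth.contDiffAt (isOpen_compl_singleton.mem_nhds hx)

theorem Hom.hasFDerivAt {w : E → E} (h : Hom w) {x : E} (hx : x ≠ 0) :
    HasFDerivAt w (fderiv ℝ w x) x :=
  ((h.cda hx).differentiableAt (by simp)).hasFDerivAt

theorem Hom.bound {w : E → E} (h : Hom w) : ∃ C : ℝ, 0 ≤ C ∧ ∀ x, ‖w x‖ ≤ C * ‖x‖ := by
  obtain ⟨C, hC⟩ := (isCompact_sphere (0 : E) 1).exists_bound_of_continuousOn
    (h.smooth.continuousOn.mono fun x hx h0 => by
      rw [mem_singleton_iff.1 h0] at hx; simp at hx)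
  refine ⟨max C 0, le_max_right _ _, fun x => ?_⟩
  by_cases hx : x = 0
  · simp [hx, h.zero]
  · have hn : 0 < ‖x‖ := norm_pos_iff.2 hx
    have e : x = ‖x‖ • (‖x‖⁻¹ • x) := by rw [smul_smul, mul_inv_cancel₀ hn.ne', one_smul]
    have h1 := hC (‖x‖⁻¹ • x) (by simp [norm_smul, hn.ne'])
    calc ‖w x‖ = ‖‖x‖ • w (‖x‖⁻¹ • x)‖ := by rw [← h.smul _ hn, ← e]
      _ = ‖x‖ * ‖w (‖x‖⁻¹ • x)‖ := by rw [norm_smul, norm_norm]
      _ ≤ ‖x‖ * max C 0 := mul_le_mul_of_nonneg_left (h1.trans (le_max_left _ _)) hn.le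
      _ = _ := mul_comm _ _

theorem Hom.continuous {w : E → E} (h : Hom w) : Continuous w := by
  rw [continuous_iff_continuousAt]
  intro x
  by_cases hx : x = 0
  · obtain ⟨C, -, hC⟩ := h.bound
    subst hx
    rw [ContinuousAt, h.zero]
    refine squeeze_zero_norm hC ?_
    have : Continuous fun x : E => C * ‖x‖ := by fun_prop
    simpa using this.tendsto 0
  · exact (h.cda hx).continuousAt

theorem Hom.euler {w : E → E} (h : Hom w) {x : E} (hx : x ≠ 0) : fderiv ℝ w x x = w x := by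
  have h1 : HasDerivAt (fun l : ℝ => w (l • x)) (fderiv ℝ w x x) 1 := by
    have a : HasDerivAt (fun l : ℝ => l • x) x 1 := by
      simpa using (hasDerivAt_id (1:ℝ)).smul_const x
    have b : HasFDerivAt w (fderiv ℝ w x) ((fun l : ℝ => l • x) 1) := by
      simpa using h.hasFDerivAt hx
    exact b.comp_hasDerivAt 1 a
  have h2 : HasDerivAt (fun l : ℝ => w (l • x)) (w x) 1 := by
    have a : HasDerivAt (fun l : ℝ => l • w x) (w x) 1 := by
      simpa using (hasDerivAt_id (1:ℝ)).smul_const (w x)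
    refine a.congr_of_eventuallyEq ?_
    filter_upwards [Ioi_mem_nhds (zero_lt_one' ℝ)] with l hl using h.smul l hl x
  exact h1.unique h2

/-- the space-time shear map -/
def G (w : E → E) (z : ℝ × E) : ℝ × E := (z.1, z.2 + z.1 • w z.2)

theorem G_deriv {w : E → E} (h : Hom w) (τ : ℝ) {x : E} (hx : x ≠ 0)
    (hi : Function.Injective (1 + τ • fderiv ℝ w x : E →L[ℝ] E)) :
    ContDiffAt ℝ ∞ (G w) (τ, x) ∧ ∃ L : (ℝ × E) ≃L[ℝ] (ℝ × E),
      HasFDerivAt (G w) (L : (ℝ × E) →L[ℝ] (ℝ × E)) (τ, x) ∧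
      ∀ s k, L (s, k) = (s, (1 + τ • fderiv ℝ w x : E →L[ℝ] E) k + s • w x) := by
  have hw : ContDiffAt ℝ ∞ (fun z : ℝ × E => w z.2) (τ, x) :=
    (h.cda hx).comp (τ, x) contDiffAt_snd
  have hc : ContDiffAt ℝ ∞ (G w) (τ, x) :=
    contDiffAt_fst.prodMk (contDiffAt_snd.add (contDiffAt_fst.smul hw))
  refine ⟨hc, ?_⟩
  have hd : HasFDerivAt (fun z : ℝ × E => w z.2)
      ((fderiv ℝ w x).comp (ContinuousLinearMap.snd ℝ ℝ E)) (τ, x) :=
    (h.hasFDerivAt hx).comp (τ, x) hasFDerivAt_snd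
  have hD := (hasFDerivAt_fst (𝕜 := ℝ) (p := (τ, x))).prodMk
    ((hasFDerivAt_snd (𝕜 := ℝ) (p := (τ, x))).add
      ((hasFDerivAt_fst (𝕜 := ℝ) (p := (τ, x))).smul hd))
  set D := (ContinuousLinearMap.fst ℝ ℝ E).prod (ContinuousLinearMap.snd ℝ ℝ E +
    ((τ, x).1 • (fderiv ℝ w x).comp (ContinuousLinearMap.snd ℝ ℝ E) +
      (ContinuousLinearMap.fst ℝ ℝ E).smulRight (w (τ, x).2))) with hDdef
  have hDa : ∀ s k, D (s, k) = (s, (1 + τ • fderiv ℝ w x : E →L[ℝ] E) k + s • w x) := by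
    intro s k; simp [hDdef, add_assoc]
  have hinj : Function.Injective (D : (ℝ × E) →ₗ[ℝ] (ℝ × E)) := by
    rintro ⟨s, k⟩ ⟨s', k'⟩ he
    have he' : D (s, k) = D (s', k') := he
    rw [hDa, hDa, Prod.mk.injEq] at he'
    obtain ⟨rfl, h2⟩ := he'
    rw [hi (add_right_cancel h2)]
  let L := (LinearEquiv.ofInjectiveEndo _ hinj).toContinuousLinearEquiv
  have hL : (L : (ℝ × E) →L[ℝ] (ℝ × E)) = D := by
    apply ContinuousLinearMap.ext; intro z; rfl
  refine ⟨L, ?_, fun s k => hDa s k⟩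
  rw [hL]; exact hD

theorem G_continuous {w : E → E} (h : Hom w) : Continuous (G w) := by
  have := h.continuous
  unfold G; fun_prop

theorem shear_ne {w : E → E} (h : Hom w) (τ : ℝ) {x : E} (hx : x ≠ 0)
    (hi : Function.Injective (1 + τ • fderiv ℝ w x : E →L[ℝ] E)) : x + τ • w x ≠ 0 := by
  intro h0
  apply hx
  apply hi
  simp [h.euler hx, h0]

theorem shear_smul {w : E → E} (h : Hom w) (τ l : ℝ) (hl : 0 < l) (x : E) :
    l • x + τ • w (l • x) = l • (x + τ • w x) := by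
  rw [h.smul l hl, smul_add, smul_comm]

theorem shear_surj {w : E → E} (h : Hom w) (τ : ℝ)
    (hi : ∀ x : E, x ≠ 0 → Function.Injective (1 + τ • fderiv ℝ w x : E →L[ℝ] E)) :
    Function.Surjective fun x => x + τ • w x := by
  set Φ : E → E := fun x => x + τ • w x with hΦ
  have hc : Continuous Φ := by have := h.continuous; fun_prop
  have hopen : IsOpen (Φ '' {0}ᶜ) := by
    rw [isOpen_iff_mem_nhds]
    rintro _ ⟨x, hx, rfl⟩
    let L := (LinearEquiv.ofInjectiveEndo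
      ((1 + τ • fderiv ℝ w x : E →L[ℝ] E) : E →ₗ[ℝ] E) (hi x hx)).toContinuousLinearEquiv
    have hL : (L : E →L[ℝ] E) = 1 + τ • fderiv ℝ w x := by
      apply ContinuousLinearMap.ext; intro z; rfl
    have hs : HasStrictFDerivAt Φ (L : E →L[ℝ] E) x := by
      rw [hL]
      exact (hasStrictFDerivAt_id x).add
        (((h.cda hx).hasStrictFDerivAt (by simp)).const_smul τ)
    rw [← hs.map_nhds_eq_of_equiv]
    exact image_mem_map (isOpen_compl_singleton.mem_nhds hx)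
  obtain ⟨x₀, hx₀, hmin⟩ := (isCompact_sphere (0 : E) 1).exists_isMinOn
    (NormedSpace.sphere_nonempty.2 zero_le_one) (hc.norm.continuousOn)
  have hx₀0 : x₀ ≠ 0 := by rintro rfl; simp at hx₀
  have hm : 0 < ‖Φ x₀‖ := norm_pos_iff.2 (shear_ne h τ hx₀0 (hi _ hx₀0))
  have hlow : ∀ x, ‖Φ x₀‖ * ‖x‖ ≤ ‖Φ x‖ := by
    intro x
    by_cases hx : x = 0
    · simp [hx]
    · have hn : 0 < ‖x‖ := norm_pos_iff.2 hx
      have e : x = ‖x‖ • (‖x‖⁻¹ • x) := by rw [smul_smul, mul_inv_cancel₀ hn.ne', one_smul]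
      have h1 : ‖Φ x₀‖ ≤ ‖Φ (‖x‖⁻¹ • x)‖ := hmin (by simp [norm_smul, hn.ne'])
      have h2 : Φ x = ‖x‖ • Φ (‖x‖⁻¹ • x) := by
        simp only [hΦ]; rw [← shear_smul h τ _ hn, ← e]
      rw [h2, norm_smul, norm_norm, mul_comm]
      exact mul_le_mul_of_nonneg_left h1 hn.le
  have hcl : closure (Φ '' {0}ᶜ) ∩ {0}ᶜ ⊆ Φ '' {0}ᶜ := by
    rintro y ⟨hy, hy0⟩
    have hK : IsClosed (Φ '' closedBall 0 ((‖y‖ + 1) / ‖Φ x₀‖)) :=
      ((isCompact_closedBall _ _).image hc).isClosed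
    have : y ∈ closure (Φ '' closedBall 0 ((‖y‖ + 1) / ‖Φ x₀‖)) := by
      rw [mem_closure_iff_nhds] at hy ⊢
      intro t ht
      obtain ⟨_, ⟨h1, h2⟩, x, -, rfl⟩ := hy _ (inter_mem ht (ball_mem_nhds y one_pos))
      refine ⟨Φ x, h1, x, ?_, rfl⟩
      rw [mem_closedBall_zero_iff, le_div_iff₀ hm, mul_comm]
      have := norm_le_norm_add_norm_sub' (Φ x) y
      rw [mem_ball, dist_eq_norm] at h2
      linarith [hlow x]
    rw [hK.closure_eq] at this
    obtain ⟨x, -, rfl⟩ := this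
    refine ⟨x, ?_, rfl⟩
    rintro rfl
    apply hy0
    simp [hΦ, h.zero]
  have hconn := (isConnected_compl_singleton_of_one_lt_rank (E := E)
    (by rw [← Module.finrank_eq_rank]; simp) 0).isPreconnected
  have := hconn.subset_of_closure_inter_subset hopen
    ⟨Φ x₀, norm_pos_iff.1 hm, x₀, hx₀0, rfl⟩ hcl
  intro y
  by_cases hy : y = 0
  · exact ⟨0, by simp [hΦ, h.zero, hy]⟩
  · obtain ⟨x, -, hx⟩ := this hy
    exact ⟨x, hx⟩

theorem shear_inj {w : E → E} (h : Hom w) (J : Set ℝ) (hJ : IsPreconnected J) (h0 : (0:ℝ) ∈ J)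
    (hi : ∀ τ ∈ J, ∀ x : E, x ≠ 0 → Function.Injective (1 + τ • fderiv ℝ w x : E →L[ℝ] E)) :
    ∀ τ ∈ J, Function.Injective fun x => x + τ • w x := by
  set S : Set ℝ := {τ | Function.Injective fun x => x + τ • w x} with hS
  have hcw := h.continuous
  have h1 : ∀ τ ∈ J, τ ∈ S → τ ∈ interior S := by
    intro τ hτ hs
    rw [mem_interior_iff_mem_nhds]
    have hK : IsCompact (sphere (0 : E) 1 ×ˢ closedBall (0 : E) 1) :=
      (isCompact_sphere _ _).prod (isCompact_closedBall _ _)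
    have := hK.eventually_forall_of_forall_eventually (x₀ := τ)
      (P := fun σ q => q.1 + σ • w q.1 = q.2 + σ • w q.2 → q.1 = q.2) (by
        rintro ⟨x, y⟩ ⟨hx, -⟩
        have hx0 : x ≠ 0 := by rintro rfl; simp at hx
        by_cases hxy : x = y
        · subst hxy
          obtain ⟨hc, L, hL, -⟩ := G_deriv h τ hx0 (hi τ hτ x hx0)
          have hs' := hc.hasStrictFDerivAt' hL (by simp)
          have hl := hs'.eventually_left_inverse
          have t1 : Tendsto (fun z : ℝ × E × E => (z.1, z.2.1)) (𝓝 (τ, x, x)) (𝓝 (τ, x)) :=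
            (by fun_prop : Continuous fun z : ℝ × E × E => (z.1, z.2.1)).tendsto _
          have t2 : Tendsto (fun z : ℝ × E × E => (z.1, z.2.2)) (𝓝 (τ, x, x)) (𝓝 (τ, x)) :=
            (by fun_prop : Continuous fun z : ℝ × E × E => (z.1, z.2.2)).tendsto _
          filter_upwards [t1.eventually hl, t2.eventually hl] with z a1 a2 he
          have : G w (z.1, z.2.1) = G w (z.1, z.2.2) := by simp [G, he]
          rw [this, a2] at a1
          exact (Prod.mk.inj a1).2.symm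
        · have hne : x + τ • w x ≠ y + τ • w y := fun he => hxy (hs he)
          have c1 : Continuous fun z : ℝ × E × E => z.2.1 + z.1 • w z.2.1 := by fun_prop
          have c2 : Continuous fun z : ℝ × E × E => z.2.2 + z.1 • w z.2.2 := by fun_prop
          filter_upwards [(isOpen_ne_fun c1 c2).mem_nhds (x := (τ, x, y)) hne] with z hz he
          exact absurd he hz)
    filter_upwards [this] with σ hσ
    have key : ∀ x y : E, ‖y‖ ≤ ‖x‖ → x + σ • w x = y + σ • w y → x = y := by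
      intro x y hxy he
      by_cases hx : x = 0
      · subst hx; simp at hxy; exact hxy.symm
      · have hn : 0 < ‖x‖⁻¹ := inv_pos.2 (norm_pos_iff.2 hx)
        have := hσ (‖x‖⁻¹ • x, ‖x‖⁻¹ • y) ⟨by simp [norm_smul, hx], by
          rw [mem_closedBall_zero_iff, norm_smul, norm_inv, norm_norm]
          exact inv_mul_le_one_of_le₀ hxy (norm_nonneg _)⟩ (by
          simp only; rw [shear_smul h σ _ hn, shear_smul h σ _ hn, he])
        exact smul_right_injective E hn.ne' this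
    intro x y he
    rcases le_total ‖y‖ ‖x‖ with hxy | hxy
    · exact key x y hxy he
    · exact (key y x hxy he.symm).symm
  have h2 : ∀ τ ∈ J, τ ∉ S → τ ∈ interior Sᶜ := by
    intro τ hτ hs
    rw [mem_interior_iff_mem_nhds]
    simp only [hS, mem_ofPred_eq, Function.Injective, not_forall] at hs
    obtain ⟨x, y, he, hxy⟩ := hs
    have hx0 : x ≠ 0 := by
      rintro rfl
      refine shear_ne h τ (Ne.symm hxy) (hi τ hτ y (Ne.symm hxy)) ?_
      rw [← he]; simp [h.zero]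
    have hy0 : y ≠ 0 := by
      rintro rfl
      refine shear_ne h τ hx0 (hi τ hτ x hx0) ?_
      rw [he]; simp [h.zero]
    obtain ⟨U, V, hU, hV, hxU, hyV, hUV⟩ := t2_separation hxy
    obtain ⟨hc, L, hL, -⟩ := G_deriv h τ hx0 (hi τ hτ x hx0)
    obtain ⟨hc', L', hL', -⟩ := G_deriv h τ hy0 (hi τ hτ y hy0)
    have m1 := (hc.hasStrictFDerivAt' hL (by simp)).map_nhds_eq_of_equiv
    have m2 := (hc'.hasStrictFDerivAt' hL' (by simp)).map_nhds_eq_of_equiv
    have a1 : G w '' (univ ×ˢ U) ∈ 𝓝 (G w (τ, x)) := by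
      rw [← m1]; exact image_mem_map (prod_mem_nhds univ_mem (hU.mem_nhds hxU))
    have a2 : G w '' (univ ×ˢ V) ∈ 𝓝 (G w (τ, x)) := by
      have : G w (τ, x) = G w (τ, y) := by simp [G, he]
      rw [this, ← m2]; exact image_mem_map (prod_mem_nhds univ_mem (hV.mem_nhds hyV))
    have t : Tendsto (fun σ : ℝ => (σ, x + τ • w x)) (𝓝 τ) (𝓝 (G w (τ, x))) :=
      (by fun_prop : Continuous fun σ : ℝ => (σ, x + τ • w x)).tendsto _
    filter_upwards [t a1, t a2] with σ b1 b2 hσ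
    obtain ⟨⟨σ1, x1⟩, ⟨-, hx1⟩, e1⟩ := b1
    obtain ⟨⟨σ2, y1⟩, ⟨-, hy1⟩, e2⟩ := b2
    simp only [G, Prod.mk.injEq] at e1 e2
    obtain ⟨rfl, e1⟩ := e1
    obtain ⟨rfl, e2⟩ := e2
    have : x1 = y1 := hσ (e1.trans e2.symm)
    subst this
    exact Set.disjoint_left.1 hUV hx1 hy1
  have := hJ.subset_left_of_subset_union isOpen_interior isOpen_interior
    (disjoint_compl_right.mono (interior_subset (s := S)) interior_subset)
    (fun τ hτ => by
      by_cases hs : τ ∈ S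
      · exact Or.inl (h1 τ hτ hs)
      · exact Or.inr (h2 τ hτ hs))
    ⟨0, h0, h1 0 h0 (by intro x y he; simpa using he)⟩
  exact fun τ hτ => interior_subset (this hτ)

end Pool.Agent.Lib.MP_fbbbeb_an
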