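import Mathlib
import Pool.Agent.Lib.MP_fbbbeb_an.Hom

set_option autoImplicit false

namespace Pool.Agent.Lib.MP_fbbbeb_an

open scoped ContDiff RealInnerProductSpace Topology NNReal
open Set Filter Metric

theorem Hom.fderiv_smul {w : E → E} (h : Hom w) {x : E} (hx : x ≠ 0) (l : ℝ) (hl : 0 < l) :
    fderiv ℝ w (l • x) = fderiv ℝ w x := by
  have h1 : HasFDerivAt (fun y => w (l • y))
      ((fderiv ℝ w (l • x)).comp (l • ContinuousLinearMap.id ℝ E)) x :=
    (h.hasFDerivAt (smul_ne_zero hl.ne' hx)).comp x ((hasFDerivAt_id x).const_smul l)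
  have h2 : HasFDerivAt (fun y => w (l • y)) (l • fderiv ℝ w x) x := by
    simp only [h.smul l hl]
    exact (h.hasFDerivAt hx).const_smul l
  have := h1.unique h2
  ext1 k
  have h3 := congrArg (fun A : E →L[ℝ] E => A k) this
  simp only [ContinuousLinearMap.comp_apply, ContinuousLinearMap.smul_apply,
    ContinuousLinearMap.id_apply, map_smul] at h3
  exact smul_right_injective E hl.ne' h3

/-- local covering of a half-space near a zero ray -/
theorem cover {ψ : E → E} (h : Hom ψ) {z : E} (hz : z ≠ 0) (hψ : ψ z = 0) (y η₀ : E) (s : ℝ)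
    (hs : 0 < s) (hy : y = s • z - fderiv ℝ ψ z η₀)
    (hsurj : ∀ q : E, ∃ (a : ℝ) (η : E), q = a • z + fderiv ℝ ψ z η) (ρ : ℝ) (hρ : 0 < ρ) :
    ∀ᶠ ε in 𝓝[>] (0:ℝ), ∃ x : E, ‖x - s • z‖ < ρ ∧ ε • x - ψ x = ε • y := by
  set L := fderiv ℝ ψ z with hL
  let Λ : (ℝ × E) →L[ℝ] E :=
    (ContinuousLinearMap.fst ℝ ℝ E).smulRight y + L.comp (ContinuousLinearMap.snd ℝ ℝ E)
  have hΛ : ∀ θ η, Λ (θ, η) = θ • y + L η := fun θ η => rfl
  have hΛs : Λ.range = ⊤ := by
    rw [LinearMap.range_eq_top]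
    intro q
    obtain ⟨a, η, rfl⟩ := hsurj q
    refine ⟨(a / s, η + (a / s) • η₀), ?_⟩
    change Λ (a / s, η + (a / s) • η₀) = _
    rw [hΛ, hy, map_add, map_smul, smul_sub, smul_smul, div_mul_cancel₀ _ hs.ne']
    abel
  obtain ⟨N, hN⟩ := Λ.exists_nonlinearRightInverse_of_surjective hΛs
  set c : ℝ≥0 := N.nnnorm⁻¹ / 2 with hc
  have hN' : (0:ℝ) < N.nnnorm := hN
  have hc0 : (0:ℝ) < c := by rw [hc]; push_cast; positivity
  have hNc : ((N.nnnorm : ℝ))⁻¹ - c = c := by rw [hc]; push_cast; ring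
  let b : ℝ × E := (s⁻¹, s⁻¹ • η₀)
  have hb : Λ b = z := by
    rw [hΛ, hy, map_smul, smul_sub, smul_smul, inv_mul_cancel₀ hs.ne', one_smul]; abel
  -- the final point depends continuously on the parameters
  have hX : ContinuousAt (fun q : ℝ × ℝ × E => q.2.1⁻¹ • (z + q.1 • q.2.2)) (0, b) := by
    have : ContinuousAt (fun q : ℝ × ℝ × E => q.2.1⁻¹) (0, b) :=
      (continuous_fst.comp continuous_snd).continuousAt.inv₀ (by simp [b, hs.ne'])
    exact this.smul (by fun_prop)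
  have hX1 : ∀ᶠ q : ℝ × ℝ × E in 𝓝 (0, b),
      ‖q.2.1⁻¹ • (z + q.1 • q.2.2) - s • z‖ < ρ ∧ 0 < q.2.1 := by
    refine Eventually.and ?_ ?_
    · have := hX.eventually (ball_mem_nhds _ hρ)
      filter_upwards [this] with q hq
      rw [dist_eq_norm] at hq
      simpa [b] using hq
    · exact (continuous_fst.comp continuous_snd).continuousAt.eventually
        (Ioi_mem_nhds (by simp [b, hs]))
  obtain ⟨r, hr, hball⟩ := Metric.eventually_nhds_iff.1 hX1
  -- derivative control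
  have hcd : ContinuousAt (fderiv ℝ ψ) z :=
    ((h.cda hz).fderiv_right (m := 0) (by simp)).continuousAt
  set δ : ℝ := min (c / 2) (c * (r / 2) / (2 * (‖b.2‖ + 1))) with hδ
  have hδ0 : 0 < δ := lt_min (by positivity) (by positivity)
  obtain ⟨r₁, hr₁, hD⟩ := Metric.eventually_nhds_iff.1
    ((hcd.eventually (ball_mem_nhds _ hδ0)).and (isOpen_compl_singleton.mem_nhds hz))
  set R : ℝ := ‖b.2‖ + r with hR
  have hR0 : 0 < R := by positivity
  have ev : ∀ᶠ ε in 𝓝[>] (0:ℝ), ε < min r (min δ (r₁ / R)) :=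
    mem_nhdsWithin_of_mem_nhds (Iio_mem_nhds (lt_min hr (lt_min hδ0 (by positivity))))
  filter_upwards [ev, self_mem_nhdsWithin] with ε hε hε0
  have hε0' : 0 < ε := hε0
  have hε1 : ε < r := hε.trans_le (min_le_left _ _)
  have hε2 : ε < δ := hε.trans_le ((min_le_right _ _).trans (min_le_left _ _))
  have hε3 : ε * R < r₁ := by
    have := hε.trans_le ((min_le_right _ _).trans (min_le_right _ _))
    rwa [lt_div_iff₀ hR0] at this
  let g : E → E := fun η => ε⁻¹ • ψ (z + ε • η) - ε • η - L η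
  have hg : ∀ η ∈ closedBall (0 : E) R, HasFDerivWithinAt g
      (fderiv ℝ ψ (z + ε • η) - ε • (1 : E →L[ℝ] E) - L) (closedBall 0 R) η ∧
      ‖fderiv ℝ ψ (z + ε • η) - ε • (1 : E →L[ℝ] E) - L‖ ≤ 2 * δ := by
    intro η hη
    have hd : dist (z + ε • η) z < r₁ := by
      rw [dist_eq_norm, add_sub_cancel_left, norm_smul, Real.norm_eq_abs, abs_of_pos hε0']
      exact (mul_le_mul_of_nonneg_left (mem_closedBall_zero_iff.1 hη) hε0'.le).trans_lt hε3
    obtain ⟨d1, d2⟩ := hD hd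
    constructor
    · have a : HasFDerivAt (fun η : E => z + ε • η) (ε • ContinuousLinearMap.id ℝ E) η :=
        ((hasFDerivAt_id η).const_smul ε).const_add z
      have a2 := (((h.hasFDerivAt d2).comp η a).const_smul ε⁻¹).sub
        ((hasFDerivAt_id η).const_smul ε) |>.sub L.hasFDerivAt
      refine (a2.congr_fderiv ?_).hasFDerivWithinAt
      ext1 k
      simp [smul_smul, hε0'.ne']
    · rw [dist_eq_norm] at d1
      have e : fderiv ℝ ψ (z + ε • η) - ε • (1 : E →L[ℝ] E) - L =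
        (fderiv ℝ ψ (z + ε • η) - L) - ε • (1 : E →L[ℝ] E) := by abel
      rw [e]
      refine (norm_sub_le _ _).trans ?_
      have : ‖ε • (1 : E →L[ℝ] E)‖ ≤ ε := by
        rw [norm_smul, Real.norm_eq_abs, abs_of_pos hε0']
        exact mul_le_of_le_one_right hε0'.le ContinuousLinearMap.norm_id_le
      linarith
  have hlip : ∀ η ∈ closedBall (0 : E) R, ∀ η' ∈ closedBall (0 : E) R,
      ‖g η - g η'‖ ≤ 2 * δ * ‖η - η'‖ := fun η hη η' hη' =>
    (convex_closedBall 0 R).norm_image_sub_le_of_norm_hasFDerivWithin_le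
      (fun x hx => (hg x hx).1) (fun x hx => (hg x hx).2) hη' hη
  let f : ℝ × E → E := fun q => Λ q + g q.2
  have hmem : ∀ q ∈ closedBall b (r / 2), q.2 ∈ closedBall (0 : E) R := by
    intro q hq
    rw [mem_closedBall_zero_iff]
    have h1 : ‖q.2 - b.2‖ ≤ ‖q - b‖ := norm_snd_le (q - b)
    have h2 := norm_le_norm_add_norm_sub' q.2 b.2
    rw [mem_closedBall, dist_eq_norm] at hq
    linarith
  have happ : ApproximatesLinearOn f Λ (closedBall b (r / 2)) c := by
    intro q hq q' hq'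
    have e : f q - f q' - Λ (q - q') = g q.2 - g q'.2 := by simp only [f, map_sub]; abel
    rw [e]
    refine (hlip _ (hmem q hq) _ (hmem q' hq')).trans ?_
    have h1 : ‖q.2 - q'.2‖ ≤ ‖q - q'‖ := norm_snd_le (q - q')
    have h2 : 2 * δ ≤ c := by have := min_le_left (c / 2 : ℝ) (c * (r / 2) / (2 * (‖b.2‖ + 1))); linarith
    exact mul_le_mul h2 h1 (norm_nonneg _) hc0.le
  have hsur := happ.surjOn_closedBall_of_nonlinearRightInverse N (b := b) (ε := r / 2)
    (by positivity) Subset.rfl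
  have hzm : z ∈ closedBall (f b) (((N.nnnorm : ℝ)⁻¹ - c) * (r / 2)) := by
    rw [hNc, mem_closedBall, dist_comm, dist_eq_norm]
    have e : f b - z = g b.2 - g 0 := by simp [f, g, hb, hψ]
    rw [e]
    refine (hlip _ (hmem b (mem_closedBall_self (by positivity))) 0
      (mem_closedBall_self hR0.le)).trans ?_
    have h2 : δ * (2 * (‖b.2‖ + 1)) ≤ c * (r / 2) := by
      rw [← le_div_iff₀ (by positivity)]; exact min_le_right _ _
    rw [sub_zero]; nlinarith
  obtain ⟨⟨θ, η⟩, hq, hfq⟩ := hsur hzm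
  have hq' : dist ((ε, θ, η) : ℝ × ℝ × E) (0, b) < r := by
    rw [Prod.dist_eq, max_lt_iff]
    refine ⟨by simpa [abs_of_pos hε0'] using hε1, (mem_closedBall.1 hq).trans_lt (by linarith)⟩
  obtain ⟨k1, k2⟩ := hball hq'
  simp only at k1 k2
  refine ⟨θ⁻¹ • (z + ε • η), k1, ?_⟩
  rw [h.smul _ (inv_pos.2 k2)]
  simp only [f, g, hΛ] at hfq
  have e1 : ψ (z + ε • η) = ε • (z + ε • η - θ • y) := by
    have : ε⁻¹ • ψ (z + ε • η) = z + ε • η - θ • y := by rw [← hfq]; simp only [hfq]; rw [eq_sub_iff_add_eq]; nth_rewrite 2 [← hfq]; abel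
    rw [← this, smul_smul, mul_inv_cancel₀ hε0'.ne', one_smul]
  rw [e1, smul_comm ε θ⁻¹, ← smul_sub, ← smul_sub, sub_sub_cancel, smul_comm, smul_smul θ⁻¹,
    inv_mul_cancel₀ k2.ne', one_smul]

theorem static_aux {ψ : E → E} (h : Hom ψ) (m κ : ℝ) (hm : 0 ≤ m) (hκ : 0 < κ)
    (hch : ∀ x : E, x ≠ 0 → fderiv ℝ ψ x * (fderiv ℝ ψ x * fderiv ℝ ψ x +
      (3 * m) • fderiv ℝ ψ x + κ • (1 : E →L[ℝ] E)) = 0)
    (htr : ∀ x : E, x ≠ 0 → trL (fderiv ℝ ψ x * fderiv ℝ ψ x +
      (3 * m) • fderiv ℝ ψ x + κ • (1 : E →L[ℝ] E)) = κ)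
    (M : Set (E ≃ₗᵢ[ℝ] E)) (hM : ∀ O ∈ M, ∀ x, ψ (O x) = O (ψ x)) :
    ∃ n : E, n ≠ 0 ∧ ∀ O ∈ M, O n = n ∨ O n = -n := by
  have hi : ∀ τ ∈ Iic (0:ℝ), ∀ x : E, x ≠ 0 →
      Function.Injective (1 + τ • fderiv ℝ ψ x : E →L[ℝ] E) := by
    intro τ hτ x hx
    have hτ' : τ ≤ 0 := hτ
    set L := fderiv ℝ ψ x
    rw [injective_iff_map_eq_zero]
    intro k hk
    have h1 : τ • L k = -k := by
      have : k + τ • L k = 0 := by simpa using hk
      exact eq_neg_of_add_eq_zero_right this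
    have h2 := congrArg (fun A : E →L[ℝ] E => τ ^ 3 • A k) (hch x hx)
    simp only [ContinuousLinearMap.mul_apply, ContinuousLinearMap.add_apply,
      ContinuousLinearMap.smul_apply, ContinuousLinearMap.one_apply, map_add, map_smul,
      ContinuousLinearMap.zero_apply, smul_zero] at h2
    have h3 : τ ^ 2 • L (L k) = k := by
      rw [sq, ← smul_smul, ← map_smul L τ (L k), h1, map_neg, smul_neg, h1, neg_neg]
    have h4 : τ ^ 3 • L (L (L k)) = -k := by
      rw [pow_succ', ← smul_smul, ← map_smul L (τ ^ 2), h3, h1]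
    have h5 : τ ^ 3 • (L (L (L k)) + (3 * m) • L (L k) + κ • L k) =
        τ ^ 3 • L (L (L k)) + (3 * m * τ) • (τ ^ 2 • L (L k)) + (κ * τ ^ 2) • (τ • L k) := by
      module
    rw [h5, h4, h3, h1] at h2
    have h6 : (-(1 - 3 * m * τ + κ * τ ^ 2)) • k = 0 := by
      rw [← h2]; module
    have h7 : 0 < 1 - 3 * m * τ + κ * τ ^ 2 := by nlinarith [mul_nonneg hm (neg_nonneg.2 hτ'), sq_nonneg τ]
    exact (smul_eq_zero.1 h6).resolve_left (by linarith)
  have hinj := shear_inj h (Iic 0) isPreconnected_Iic (by simp) hi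
  have hinj' : ∀ ε : ℝ, 0 < ε → ∀ x x' : E, ε • x - ψ x = ε • x' - ψ x' → x = x' := by
    intro ε hε x x' he
    apply hinj (-ε⁻¹) (by simp [hε.le])
    apply smul_right_injective E hε.ne'
    simpa [sub_eq_add_neg, smul_smul, mul_inv_cancel₀ hε.ne'] using he
  -- projection onto the kernel
  let P : E → (E →L[ℝ] E) := fun x => κ⁻¹ • (fderiv ℝ ψ x * fderiv ℝ ψ x +
      (3 * m) • fderiv ℝ ψ x + κ • (1 : E →L[ℝ] E))
  have hPL : ∀ x : E, x ≠ 0 → ∀ k, fderiv ℝ ψ x (P x k) = 0 := by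
    intro x hx k
    have := congrArg (fun A : E →L[ℝ] E => A k) (hch x hx)
    simp only [P, ContinuousLinearMap.smul_apply, map_smul]
    rw [ContinuousLinearMap.mul_apply] at this
    rw [this]; simp
  have hPk : ∀ x k, fderiv ℝ ψ x k = 0 → P x k = k := by
    intro x k hk
    simp [P, hk, smul_smul, hκ.ne']
  have hPdec : ∀ x k, k = P x k - fderiv ℝ ψ x (κ⁻¹ • (fderiv ℝ ψ x k + (3 * m) • k)) := by
    intro x k
    simp [P, smul_smul, hκ.ne']
  have hPtr : ∀ x : E, x ≠ 0 → trL (P x) = 1 := by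
    intro x hx
    simp only [P, map_smul, htr x hx, smul_eq_mul, inv_mul_cancel₀ hκ.ne']
  -- there is a zero
  have hZ : ∃ z : E, ‖z‖ = 1 ∧ ψ z = 0 := by
    by_contra hno
    push Not at hno
    have hc := h.continuous
    obtain ⟨x₀, hx₀, hmin⟩ := (isCompact_sphere (0 : E) 1).exists_isMinOn
      (NormedSpace.sphere_nonempty.2 zero_le_one) (hc.norm.continuousOn)
    have hm0 : 0 < ‖ψ x₀‖ := norm_pos_iff.2 (hno _ (by simpa using hx₀))
    have hlow : ∀ x, ‖ψ x₀‖ * ‖x‖ ≤ ‖ψ x‖ := by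
      intro x
      by_cases hx : x = 0
      · simp [hx]
      · have hn : 0 < ‖x‖ := norm_pos_iff.2 hx
        have e : x = ‖x‖ • (‖x‖⁻¹ • x) := by rw [smul_smul, mul_inv_cancel₀ hn.ne', one_smul]
        have h1 : ‖ψ x₀‖ ≤ ‖ψ (‖x‖⁻¹ • x)‖ := hmin (by simp [norm_smul, hn.ne'])
        have h2 : ψ x = ‖x‖ • ψ (‖x‖⁻¹ • x) := by rw [← h.smul _ hn, ← e]
        rw [h2, norm_smul, norm_norm, mul_comm]
        exact mul_le_mul_of_nonneg_left h1 hn.le
    have hall : ∀ y : E, y ∈ ψ '' univ := by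
      intro y
      set R := 2 * ‖y‖ / ‖ψ x₀‖ with hR
      have hK : IsClosed (ψ '' closedBall 0 R) := ((isCompact_closedBall _ _).image hc).isClosed
      have : y ∈ closure (ψ '' closedBall 0 R) := by
        rw [Metric.mem_closure_iff]
        intro δ hδ
        have hR0 : 0 ≤ R := by positivity
        set ε := min (‖ψ x₀‖ / 2) (δ / (R + 1)) with hε
        have hε0 : 0 < ε := lt_min (by positivity) (by positivity)
        obtain ⟨x, hx⟩ := shear_surj h (-ε⁻¹) (hi _ (by simp [hε0.le])) (-(ε⁻¹ • y))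
        have e : ψ x = y + ε • x := by
          have := congrArg (fun v => ε • v) hx
          simp only [smul_add, smul_smul, mul_neg, mul_inv_cancel₀ hε0.ne', neg_smul, one_smul,
            smul_neg] at this
          rw [← neg_neg y, ← this]; abel
        have n1 : ‖ψ x‖ ≤ ‖y‖ + ε * ‖x‖ := by
          rw [e]; refine (norm_add_le _ _).trans ?_
          rw [norm_smul, Real.norm_eq_abs, abs_of_pos hε0]
        have n2 : ‖x‖ ≤ R := by
          rw [hR, le_div_iff₀ hm0]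
          have := mul_le_mul_of_nonneg_right (min_le_left (‖ψ x₀‖ / 2) (δ / (R + 1))) (norm_nonneg x)
          nlinarith [hlow x]
        refine ⟨ψ x, ⟨x, mem_closedBall_zero_iff.2 n2, rfl⟩, ?_⟩
        rw [dist_comm, dist_eq_norm, e, add_sub_cancel_left, norm_smul, Real.norm_eq_abs,
          abs_of_pos hε0]
        have : ε * (R + 1) ≤ δ := by rw [← le_div_iff₀ (by positivity)]; exact min_le_right _ _
        nlinarith
      rw [hK.closure_eq] at this
      exact image_mono (subset_univ _) this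
    have hnull : MeasureTheory.volume (ψ '' {0}ᶜ) = 0 := by
      refine MeasureTheory.addHaar_image_eq_zero_of_det_fderivWithin_eq_zero _
        (f' := fderiv ℝ ψ) (fun x hx => (h.hasFDerivAt hx).hasFDerivWithinAt) fun x hx => ?_
      have hP0 : P x ≠ 0 := by
        intro h0; have := hPtr x hx; rw [h0, map_zero] at this; exact zero_ne_one this
      obtain ⟨k, hk⟩ : ∃ k, P x k ≠ 0 := by
        by_contra hn; push Not at hn; exact hP0 (ContinuousLinearMap.ext hn)
      rw [ContinuousLinearMap.det, LinearMap.det_eq_zero_iff_ker_ne_bot, Submodule.ne_bot_iff]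
      exact ⟨P x k, hPL x hx k, hk⟩
    have hsub : ({0}ᶜ : Set E) ⊆ ψ '' {0}ᶜ := by
      intro y hy
      obtain ⟨x, -, rfl⟩ := hall y
      exact ⟨x, by rintro rfl; exact hy h.zero, rfl⟩
    have := MeasureTheory.measure_mono_null hsub hnull
    exact (isOpen_compl_singleton.measure_pos MeasureTheory.volume
      ⟨x₀, by rintro rfl; simp at hx₀⟩).ne' this
  -- structure at a zero
  have hrk : ∀ z : E, ‖z‖ = 1 → ψ z = 0 → ∀ k, P z k = ⟪z, P z k⟫ • z := by
    intro z hz1 hψ k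
    have hz : z ≠ 0 := by rintro rfl; simp at hz1
    have hLz : fderiv ℝ ψ z z = 0 := by rw [h.euler hz, hψ]
    have hproj : LinearMap.IsProj (LinearMap.range (P z : E →ₗ[ℝ] E)) (P z : E →ₗ[ℝ] E) :=
      ⟨fun x => ⟨x, rfl⟩, by rintro _ ⟨x, rfl⟩; exact hPk z _ (hPL z hz x)⟩
    have ht := hproj.trace
    rw [← trL_apply, hPtr z hz] at ht
    have hf : Module.finrank ℝ (LinearMap.range (P z : E →ₗ[ℝ] E)) = 1 := by exact_mod_cast ht.symm
    have hzm : z ∈ LinearMap.range (P z : E →ₗ[ℝ] E) := ⟨z, hPk z z hLz⟩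
    obtain ⟨a, ha⟩ := (finrank_eq_one_iff_of_nonzero' (⟨z, hzm⟩ : LinearMap.range _)
      (by simpa using hz)).1 hf ⟨P z k, k, rfl⟩
    have ha' : a • z = P z k := congrArg Subtype.val ha
    rw [← ha', inner_smul_right, real_inner_self_eq_norm_sq, hz1]; simp
  have hcov : ∀ z : E, ‖z‖ = 1 → ψ z = 0 → ∀ y : E, 0 < ⟪z, P z y⟫ → ∀ ρ : ℝ, 0 < ρ →
      ∀ᶠ ε in 𝓝[>] (0:ℝ), ∃ x : E, ‖x - ⟪z, P z y⟫ • z‖ < ρ ∧ ε • x - ψ x = ε • y := by
    intro z hz1 hψ y hy ρ hρ
    have hz : z ≠ 0 := by rintro rfl; simp at hz1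
    refine cover h hz hψ y _ _ hy (by rw [← hrk z hz1 hψ]; exact hPdec z y) (fun q => ?_) ρ hρ
    refine ⟨⟪z, P z q⟫, -(κ⁻¹ • (fderiv ℝ ψ z q + (3 * m) • q)), ?_⟩
    rw [← hrk z hz1 hψ, map_neg, ← sub_eq_add_neg]; exact hPdec z q
  obtain ⟨z, hz1, hψ⟩ := hZ
  have hz : z ≠ 0 := by rintro rfl; simp at hz1
  have hLz : fderiv ℝ ψ z z = 0 := by rw [h.euler hz, hψ]
  let n : E := ContinuousLinearMap.adjoint (P z) z
  have hn : ∀ y, ⟪n, y⟫ = ⟪z, P z y⟫ := fun y => ContinuousLinearMap.adjoint_inner_left _ _ _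
  refine ⟨n, fun h0 => ?_, fun O hO => ?_⟩
  · have := hn z
    rw [h0, hPk z z hLz, real_inner_self_eq_norm_sq, hz1] at this
    simp at this
  have hOz : O z ≠ 0 := by simpa using hz
  have hLO : ∀ k, fderiv ℝ ψ (O z) (O k) = O (fderiv ℝ ψ z k) := by
    intro k
    have h1 : HasFDerivAt (fun y => ψ (O y))
        ((fderiv ℝ ψ (O z)).comp (O.toContinuousLinearEquiv : E →L[ℝ] E)) z :=
      (h.hasFDerivAt hOz).comp z O.toContinuousLinearEquiv.hasFDerivAt
    have h2 : HasFDerivAt (fun y => ψ (O y))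
        ((O.toContinuousLinearEquiv : E →L[ℝ] E).comp (fderiv ℝ ψ z)) z := by
      simp only [hM O hO]
      exact O.toContinuousLinearEquiv.hasFDerivAt.comp z (h.hasFDerivAt hz)
    exact congrArg (fun A : E →L[ℝ] E => A k) (h1.unique h2)
  have hPO : ∀ k, P (O z) (O k) = O (P z k) := by
    intro k; simp [P, hLO]
  have hnO : ∀ y, ⟪O n, y⟫ = ⟪O z, P (O z) y⟫ := by
    intro y
    obtain ⟨k, rfl⟩ := O.surjective y
    rw [hPO, O.inner_map_map, O.inner_map_map, hn]
  by_cases he : O z = z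
  · left
    apply ext_inner_right ℝ
    intro y; rw [hnO, hn, he]
  · right
    by_contra hne
    have hy0 : O n + n ≠ 0 := fun h0 => hne (eq_neg_of_add_eq_zero_left h0)
    have hpos : 0 < ⟪O n + n, O n + n⟫ := real_inner_self_pos.2 hy0
    have e1 : ⟪O n, O n + n⟫ = ⟪n, O n + n⟫ := by
      rw [inner_add_right, inner_add_right, O.inner_map_map, real_inner_comm n (O n)]; ring
    rw [inner_add_left, e1] at hpos
    have p1 : 0 < ⟪z, P z (O n + n)⟫ := by rw [← hn]; linarith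
    have p2 : 0 < ⟪O z, P (O z) (O n + n)⟫ := by rw [← hnO, e1]; linarith
    have hO1 : ‖O z‖ = 1 := by rw [O.norm_map, hz1]
    have hψO : ψ (O z) = 0 := by rw [hM O hO, hψ, map_zero]
    set s := ⟪z, P z (O n + n)⟫
    have es : ⟪O z, P (O z) (O n + n)⟫ = s := by rw [← hnO, e1, hn]
    have hd : 0 < ‖s • z - s • O z‖ := by
      rw [norm_pos_iff, ← smul_sub]
      exact smul_ne_zero p1.ne' (sub_ne_zero.2 (Ne.symm he))
    obtain ⟨ε, ⟨⟨x, hx1, hx2⟩, ⟨x', hx1', hx2'⟩⟩, hε⟩ :=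
      (((hcov z hz1 hψ _ p1 _ (half_pos hd)).and (hcov (O z) hO1 hψO _ p2 _ (half_pos hd))).and
        self_mem_nhdsWithin).exists
    have := hinj' ε hε x x' (hx2.trans hx2'.symm)
    subst this
    rw [es] at hx1'
    have := norm_sub_le_norm_sub_add_norm_sub (s • z) x (s • O z)
    rw [norm_sub_rev (s • z) x] at this
    linarith

theorem static_pos {w : E → E} (h : Hom w) (a b : ℝ) (hb : 0 ≤ b) (hab : ¬ (a = 0 ∧ b = 0))
    (h1 : ∀ x : E, x ≠ 0 → trL (fderiv ℝ w x) = 0)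
    (h2 : ∀ x : E, x ≠ 0 → trL (fderiv ℝ w x * fderiv ℝ w x) = 2 * a)
    (h3 : ∀ x : E, x ≠ 0 → trL (fderiv ℝ w x * fderiv ℝ w x * fderiv ℝ w x) = 3 * b)
    (M : Set (E ≃ₗᵢ[ℝ] E)) (hM : ∀ O ∈ M, ∀ x, w (O x) = O (w x)) :
    ∃ n : E, n ≠ 0 ∧ ∀ O ∈ M, O n = n ∨ O n = -n := by
  obtain ⟨m, hm0, hm1, hm2⟩ : ∃ m : ℝ, 0 ≤ m ∧ m ^ 3 - a * m - b = 0 ∧ 0 < 3 * m ^ 2 - a := by
    set s := Real.sqrt (max a 0) with hs
    have s0 : 0 ≤ s := Real.sqrt_nonneg _
    have s2 : s ^ 2 = max a 0 := Real.sq_sqrt (le_max_right _ _)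
    have hc : Continuous fun m : ℝ => m ^ 3 - a * m - b := by fun_prop
    have hlo : s ^ 3 - a * s - b ≤ 0 := by
      rcases le_total a 0 with ha | ha
      · have : s = 0 := by rw [hs, max_eq_right ha, Real.sqrt_zero]
        rw [this]; linarith
      · rw [max_eq_left ha] at s2
        have : s ^ 3 = a * s := by rw [pow_succ, s2]
        linarith
    have hhi : 0 ≤ (s + b + 1) ^ 3 - a * (s + b + 1) - b := by
      have : a ≤ s ^ 2 := s2 ▸ le_max_left _ _
      have t1 : 1 ≤ (s + b + 1) ^ 2 - a := by nlinarith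
      have : (s + b + 1) ^ 3 - a * (s + b + 1) = (s + b + 1) * ((s + b + 1) ^ 2 - a) := by ring
      nlinarith
    obtain ⟨m, hm, hm'⟩ := intermediate_value_Icc (show s ≤ s + b + 1 by linarith)
      hc.continuousOn ⟨hlo, hhi⟩
    refine ⟨m, s0.trans hm.1, hm', ?_⟩
    simp only at hm'
    have t : s ^ 2 ≤ m ^ 2 := pow_le_pow_left₀ s0 hm.1 2
    rcases lt_trichotomy a 0 with ha | ha | ha
    · nlinarith [sq_nonneg m]
    · subst ha
      have : m ≠ 0 := by rintro rfl; apply hab; simpa using hm'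
      have := sq_pos_of_ne_zero this
      linarith
    · rw [max_eq_left ha.le] at s2; linarith
  have hψ : Hom fun x => w x - m • x :=
    ⟨by simp [h.zero], fun l hl x => by rw [h.smul l hl, smul_sub, smul_comm],
      h.smooth.sub (contDiff_id.const_smul m).contDiffOn⟩
  have hD : ∀ x : E, x ≠ 0 → fderiv ℝ (fun x => w x - m • x) x =
      fderiv ℝ w x - m • (1 : E →L[ℝ] E) := fun x hx =>
    ((h.hasFDerivAt hx).sub ((hasFDerivAt_id x).const_smul m)).fderiv
  refine static_aux hψ m (3 * m ^ 2 - a) hm0 hm2 (fun x hx => ?_) (fun x hx => ?_) M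
    (fun O hO x => by simp [hM O hO])
  · have c := ch _ (h1 x hx)
    rw [h2 x hx, h3 x hx] at c
    rw [hD x hx]
    set A := fderiv ℝ w x
    have e : (A - m • 1) * ((A - m • 1) * (A - m • 1) + (3 * m) • (A - m • 1) +
        (3 * m ^ 2 - a) • (1 : E →L[ℝ] E)) =
        A * A * A - a • A - (m ^ 3 - a * m) • (1 : E →L[ℝ] E) := by
      ext1 k
      simp only [ContinuousLinearMap.mul_apply, ContinuousLinearMap.add_apply,
        ContinuousLinearMap.sub_apply, ContinuousLinearMap.smul_apply,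
        ContinuousLinearMap.one_apply, map_add, map_sub, map_smul]
      module
    rw [e, c, show m ^ 3 - a * m = b by linarith]
    module
  · rw [hD x hx]
    set A := fderiv ℝ w x
    have e : (A - m • 1) * (A - m • 1) + (3 * m) • (A - m • 1) +
        (3 * m ^ 2 - a) • (1 : E →L[ℝ] E) = A * A + m • A + (m ^ 2 - a) • (1 : E →L[ℝ] E) := by
      ext1 k
      simp only [ContinuousLinearMap.mul_apply, ContinuousLinearMap.add_apply,
        ContinuousLinearMap.sub_apply, ContinuousLinearMap.smul_apply,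
        ContinuousLinearMap.one_apply, map_add, map_sub, map_smul]
      module
    rw [e, map_add, map_add, map_smul, map_smul, h1 x hx, h2 x hx, trL_one]
    simp only [smul_eq_mul]; ring

theorem static {w : E → E} (h : Hom w) (a b : ℝ) (hab : ¬ (a = 0 ∧ b = 0))
    (h1 : ∀ x : E, x ≠ 0 → trL (fderiv ℝ w x) = 0)
    (h2 : ∀ x : E, x ≠ 0 → trL (fderiv ℝ w x * fderiv ℝ w x) = 2 * a)
    (h3 : ∀ x : E, x ≠ 0 → trL (fderiv ℝ w x * fderiv ℝ w x * fderiv ℝ w x) = 3 * b)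
    (M : Set (E ≃ₗᵢ[ℝ] E)) (hM : ∀ O ∈ M, ∀ x, w (O x) = O (w x)) :
    ∃ n : E, n ≠ 0 ∧ ∀ O ∈ M, O n = n ∨ O n = -n := by
  rcases le_total 0 b with hb | hb
  · exact static_pos h a b hb hab h1 h2 h3 M hM
  · have hw : Hom fun x => - w x :=
      ⟨by simp [h.zero], fun l hl x => by rw [h.smul l hl, smul_neg], h.smooth.neg⟩
    have hD : ∀ x : E, fderiv ℝ (fun x => - w x) x = - fderiv ℝ w x := fun x => fderiv_neg
    refine static_pos hw a (-b) (by linarith) (by simpa using hab) (fun x hx => ?_)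
      (fun x hx => ?_) (fun x hx => ?_) M (fun O hO x => by simp [hM O hO])
    · rw [hD, map_neg, h1 x hx, neg_zero]
    · have e : ∀ A : E →L[ℝ] E, -A * -A = A * A := fun A => by ext1 k; simp
      rw [hD, e, h2 x hx]
    · have e : ∀ A : E →L[ℝ] E, -A * -A * -A = -(A * A * A) := fun A => by ext1 k; simp
      rw [hD, e, map_neg, h3 x hx]; ring

end Pool.Agent.Lib.MP_fbbbeb_an
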