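import Mathlib
import Pool.Agent.Lib.MP_fbbbeb_an.Static
import Pool.Agent.Lib.MP_fbbbeb_an.Adm

set_option autoImplicit false

namespace Pool.Agent.Lib.MP_fbbbeb_an

open scoped ContDiff RealInnerProductSpace Topology NNReal
open Set Filter Metric

theorem split (u : ℝ → E → E) (t : ℝ) (x : E) (D : (ℝ × E) →L[ℝ] E)
    (h : HasFDerivAt (fun z : ℝ × E => u z.1 z.2) D (t, x)) :
    deriv (fun s => u s x) t = D (1, 0) ∧
      fderiv ℝ (u t) x = D.comp (ContinuousLinearMap.inr ℝ ℝ E) := by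
  constructor
  · have a : HasDerivAt (fun s : ℝ => (s, x)) ((1, 0) : ℝ × E) t :=
      (hasDerivAt_id t).prodMk (hasDerivAt_const t x)
    exact (h.comp_hasDerivAt t a).deriv
  · exact (h.comp x (hasFDerivAt_prodMk_right t x)).fderiv

theorem grad_sq (c : ℝ) (x : E) : gradient (fun x : E => c * ‖x‖ ^ 2) x = (2 * c) • x := by
  apply HasGradientAt.gradient
  rw [hasGradientAt_iff_hasFDerivAt]
  refine ((hasStrictFDerivAt_norm_sq x).hasFDerivAt.const_mul c).congr_fderiv ?_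
  ext1 k
  simp [inner_smul_left]; ring

section
variable {M : Set (E ≃ₗᵢ[ℝ] E)} {I : Set ℝ} {u : ℝ → E → E} {c : ℝ → ℝ}

theorem IsSol.cda {p : ℝ → E → ℝ} (h : IsSol M I u p) (hI : IsOpen I) {z : ℝ × E}
    (hz : z ∈ I ×ˢ ({0}ᶜ : Set E)) : ContDiffAt ℝ ∞ (fun z : ℝ × E => u z.1 z.2) z :=
  h.1.contDiffAt ((hI.prod isOpen_compl_singleton).mem_nhds hz)

theorem IsSol.facts (h : IsSol M I u fun t x => c t * ‖x‖ ^ 2) (hI : IsOpen I) {z : ℝ × E}
    (hz : z ∈ I ×ˢ ({0}ᶜ : Set E)) :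
    fderiv ℝ (fun z : ℝ × E => u z.1 z.2) z (1, u z.1 z.2) = -((2 * c z.1) • z.2) ∧
    fderiv ℝ (u z.1) z.2 =
      (fderiv ℝ (fun z : ℝ × E => u z.1 z.2) z).comp (ContinuousLinearMap.inr ℝ ℝ E) := by
  obtain ⟨t, x⟩ := z
  obtain ⟨s1, s2⟩ := split u t x _ ((h.cda hI hz).differentiableAt (by simp)).hasFDerivAt
  refine ⟨?_, s2⟩
  have e := (h.2.2 t hz.1 x hz.2).1
  rw [s1, s2, grad_sq] at e
  refine eq_neg_of_add_eq_zero_left ?_
  rw [← e]
  congr 1
  rw [ContinuousLinearMap.comp_apply, ← map_add]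
  simp

theorem IsSol.evol (h : IsSol M I u fun t x => c t * ‖x‖ ^ 2) (hI : IsOpen I) {t : ℝ} {x : E}
    (hz : (t, x) ∈ I ×ˢ ({0}ᶜ : Set E)) :
    HasDerivAt (fun s : ℝ => fderiv ℝ (u (t + s)) (x + s • u t x))
      (-(fderiv ℝ (u t) x * fderiv ℝ (u t) x) - (2 * c t) • (1 : E →L[ℝ] E)) 0 ∧
    ∀ᶠ s in 𝓝 (0:ℝ), (t + s, x + s • u t x) ∈ I ×ˢ ({0}ᶜ : Set E) := by
  set F : ℝ × E → E := fun z => u z.1 z.2 with hF
  have hS := (hI.prod (isOpen_compl_singleton (x := (0:E)))).mem_nhds hz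
  have hc := h.cda hI hz
  have hd : HasFDerivAt F (fderiv ℝ F (t, x)) (t, x) := (hc.differentiableAt (by simp)).hasFDerivAt
  have hd2 : HasFDerivAt (fderiv ℝ F) (fderiv ℝ (fderiv ℝ F) (t, x)) (t, x) :=
    ((hc.fderiv_right (m := 1) (by norm_cast)).differentiableAt (by simp)).hasFDerivAt
  have hsym := hc.isSymmSndFDerivAt (by simp; norm_cast)
  have line : ∀ (a : ℝ) (k : E), HasDerivAt (fun s : ℝ => (t + s * a, x + s • k)) ((a, k) : ℝ × E) 0 ∧
      (fun s : ℝ => (t + s * a, x + s • k)) 0 = (t, x) := by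
    intro a k
    refine ⟨HasDerivAt.prodMk ?_ ?_, by simp⟩
    · simpa using ((hasDerivAt_id (0:ℝ)).mul_const a).const_add t
    · simpa using ((hasDerivAt_id (0:ℝ)).smul_const k).const_add x
  have ev : ∀ (a : ℝ) (k : E), ∀ᶠ s in 𝓝 (0:ℝ), (t + s * a, x + s • k) ∈ I ×ˢ ({0}ᶜ : Set E) := by
    intro a k
    have := (line a k).1.continuousAt.tendsto
    simp only [zero_mul, add_zero, zero_smul] at this
    exact this hS
  have key : ∀ k : E, fderiv ℝ (fderiv ℝ F) (t, x) (1, u t x) (0, k) =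
      -(fderiv ℝ (u t) x (fderiv ℝ (u t) x k)) - (2 * c t) • k := by
    intro k
    obtain ⟨l1, l2⟩ := line 0 k
    have a1 := (l2 ▸ hd2 : HasFDerivAt (fderiv ℝ F) _ ((fun s : ℝ => (t + s * 0, x + s • k)) 0)).comp_hasDerivAt 0 l1
    have a2 := (l2 ▸ hd : HasFDerivAt F _ ((fun s : ℝ => (t + s * 0, x + s • k)) 0)).comp_hasDerivAt 0 l1
    have a3 := a1.clm_apply ((hasDerivAt_const (0:ℝ) (1:ℝ)).prodMk a2)
    have a4 : HasDerivAt (fun s : ℝ => -((2 * c t) • (x + s • k))) (-((2 * c t) • k)) 0 := by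
      exact ((((hasDerivAt_id (0:ℝ)).smul_const k).const_add x).const_smul
        (2 * c t)).neg.congr_deriv (by simp)
    have a5 := a3.unique (a4.congr_of_eventuallyEq (by
      filter_upwards [ev 0 k] with s hs
      simpa using (h.facts hI hs).1))
    rw [hsym.eq, (h.facts hI hz).2]
    simp only [Function.comp, mul_zero, add_zero, zero_smul] at a5
    rw [eq_sub_iff_add_eq, eq_neg_iff_add_eq_zero, add_right_comm]
    exact add_eq_zero_iff_eq_neg.2 a5
  obtain ⟨l1, l2⟩ := line 1 (u t x)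
  have a1 := (l2 ▸ hd2 : HasFDerivAt (fderiv ℝ F) _ ((fun s : ℝ => (t + s * 1, x + s • u t x)) 0)).comp_hasDerivAt 0 l1
  have a2 := a1.clm_comp (hasDerivAt_const (0:ℝ) (ContinuousLinearMap.inr ℝ ℝ E))
  refine ⟨(a2.congr_of_eventuallyEq ?_).congr_deriv ?_, by simpa using ev 1 (u t x)⟩
  · filter_upwards [ev 1 (u t x)] with s hs
    simpa using (h.facts hI hs).2
  · ext1 k
    simpa using key k

theorem IsSol.traces (h : IsSol M I u fun t x => c t * ‖x‖ ^ 2) (hI : IsOpen I) {t : ℝ}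
    (ht : t ∈ I) : ∃ b : ℝ, ∀ x : E, x ≠ 0 → trL (fderiv ℝ (u t) x) = 0 ∧
      trL (fderiv ℝ (u t) x * fderiv ℝ (u t) x) = 2 * (-3 * c t) ∧
      trL (fderiv ℝ (u t) x * fderiv ℝ (u t) x * fderiv ℝ (u t) x) = 3 * b := by
  have t1 : ∀ z ∈ I ×ˢ ({0}ᶜ : Set E), trL (fderiv ℝ (u z.1) z.2) = 0 := fun z hz =>
    (h.2.2 z.1 hz.1 z.2 hz.2).2.1
  have t2 : ∀ z ∈ I ×ˢ ({0}ᶜ : Set E),
      trL (fderiv ℝ (u z.1) z.2 * fderiv ℝ (u z.1) z.2) = 2 * (-3 * c z.1) := by
    rintro ⟨t, x⟩ hz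
    obtain ⟨a1, a2⟩ := h.evol hI hz
    have := (trL.hasFDerivAt.comp_hasDerivAt 0 a1).unique
      ((hasDerivAt_const (0:ℝ) (0:ℝ)).congr_of_eventuallyEq (by
        filter_upwards [a2] with s hs using t1 _ hs))
    rw [map_sub, map_neg, map_smul, trL_one, smul_eq_mul] at this
    simp only; linarith
  refine ⟨-(deriv (fun s => 2 * (-3 * c (t + s))) 0) / 6, fun x hx => ⟨t1 (t, x) ⟨ht, hx⟩,
    t2 (t, x) ⟨ht, hx⟩, ?_⟩⟩
  obtain ⟨a1, a2⟩ := h.evol hI (show (t, x) ∈ I ×ˢ ({0}ᶜ : Set E) from ⟨ht, hx⟩)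
  have a3 := trL.hasFDerivAt.comp_hasDerivAt 0 (a1.clm_comp a1)
  have a4 := (a3.congr_of_eventuallyEq (f₁ := fun s => 2 * (-3 * c (t + s))) (by
    filter_upwards [a2] with s hs using (t2 _ hs).symm)).deriv
  rw [a4]
  simp only [add_zero, zero_smul]
  have t0 := t1 (t, x) ⟨ht, hx⟩
  simp only at t0
  generalize fderiv ℝ (u t) x = A at *
  have e : (-(A * A) - (2 * c t) • (1 : E →L[ℝ] E)).comp A +
      A.comp (-(A * A) - (2 * c t) • (1 : E →L[ℝ] E)) =
      (-2 : ℝ) • (A * A * A) - (4 * c t) • A := by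
    ext1 k
    simp only [ContinuousLinearMap.mul_apply, ContinuousLinearMap.add_apply,
      ContinuousLinearMap.sub_apply, ContinuousLinearMap.smul_apply, ContinuousLinearMap.neg_apply,
      ContinuousLinearMap.comp_apply, ContinuousLinearMap.one_apply, map_neg, map_sub, map_smul]
    module
  rw [e, map_sub, map_smul, map_smul, t0]
  simp only [smul_eq_mul]; ring

open Classical in
/-- the field at time `t`, set to zero at the origin -/
noncomputable def cut (v : E → E) (x : E) : E := if x = 0 then 0 else v x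

theorem cut_ne (v : E → E) {x : E} (hx : x ≠ 0) : cut v x = v x := if_neg hx

theorem cut_fderiv (v : E → E) {x : E} (hx : x ≠ 0) : fderiv ℝ (cut v) x = fderiv ℝ v x := by
  apply Filter.EventuallyEq.fderiv_eq
  filter_upwards [isOpen_compl_singleton.mem_nhds hx] with y hy using cut_ne v hy

theorem IsSol.hom {p : ℝ → E → ℝ} (h : IsSol M I u p) {t : ℝ} (ht : t ∈ I) :
    Hom (cut (u t)) ∧ ∀ O ∈ M, ∀ x, cut (u t) (O x) = O (cut (u t) x) := by
  refine ⟨⟨if_pos rfl, fun l hl x => ?_, ?_⟩, fun O hO x => ?_⟩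
  · by_cases hx : x = 0
    · simp [hx, cut]
    · rw [cut_ne _ hx, cut_ne _ (smul_ne_zero hl.ne' hx), (h.2.2 t ht x hx).2.2.1 l hl]
  · have : ContDiffOn ℝ ∞ (u t) {0}ᶜ :=
      h.1.comp (contDiff_const.prodMk contDiff_id).contDiffOn fun x hx => ⟨ht, hx⟩
    exact this.congr fun x hx => cut_ne _ hx
  · by_cases hx : x = 0
    · simp [hx, cut]
    · rw [cut_ne _ hx, cut_ne _ (by simpa using hx), (h.2.2 t ht x hx).2.2.2 O hO]

theorem IsSol.nil (hM : Admissible M) (h : IsSol M I u fun t x => c t * ‖x‖ ^ 2) (hI : IsOpen I)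
    {t : ℝ} (ht : t ∈ I) : c t = 0 ∧ ∀ x : E, x ≠ 0 → trL (fderiv ℝ (cut (u t)) x) = 0 ∧
      trL (fderiv ℝ (cut (u t)) x * fderiv ℝ (cut (u t)) x) = 0 ∧
      fderiv ℝ (cut (u t)) x * fderiv ℝ (cut (u t)) x * fderiv ℝ (cut (u t)) x = 0 := by
  obtain ⟨b, hb⟩ := h.traces hI ht
  obtain ⟨h1, h2⟩ := h.hom ht
  have hab : -3 * c t = 0 ∧ b = 0 := by
    by_contra hab
    obtain ⟨n, hn, hO⟩ := static h1 _ b hab
      (fun x hx => by rw [cut_fderiv _ hx]; exact (hb x hx).1)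
      (fun x hx => by rw [cut_fderiv _ hx]; exact (hb x hx).2.1)
      (fun x hx => by rw [cut_fderiv _ hx]; exact (hb x hx).2.2) M h2
    exact no_line hM n hn hO
  refine ⟨by linarith [hab.1], fun x hx => ?_⟩
  obtain ⟨b1, b2, b3⟩ := hb x hx
  rw [hab.1] at b2
  rw [hab.2] at b3
  rw [cut_fderiv _ hx]
  refine ⟨b1, by linarith, ?_⟩
  rw [ch _ b1, b2, b3]; ext1 k; simp

/-- inverse of the shear -/
noncomputable def sinv (w : E → E) (q : ℝ × E) : E :=
  Function.invFun (fun x => x + q.1 • w x) q.2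

theorem free {w : E → E} (h : Hom w) (hM : ∀ O ∈ M, ∀ x, w (O x) = O (w x))
    (hn : ∀ x : E, x ≠ 0 → trL (fderiv ℝ w x) = 0 ∧ trL (fderiv ℝ w x * fderiv ℝ w x) = 0 ∧
      fderiv ℝ w x * fderiv ℝ w x * fderiv ℝ w x = 0) :
    IsSol M univ (fun τ y => w (sinv w (τ, y))) (fun _ _ => 0) ∧
    (∀ τ y, sinv w (τ, y) + τ • w (sinv w (τ, y)) = y) ∧
    (∀ τ : ℝ, ∀ x : E, x ≠ 0 → x + τ • w x ≠ 0) := by
  have hinv : ∀ τ : ℝ, ∀ x : E, x ≠ 0 → ∀ k,
      (1 + τ • fderiv ℝ w x : E →L[ℝ] E) (k - τ • fderiv ℝ w x k +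
        τ ^ 2 • fderiv ℝ w x (fderiv ℝ w x k)) = k ∧
      (1 + τ • fderiv ℝ w x : E →L[ℝ] E) k - τ • fderiv ℝ w x ((1 + τ • fderiv ℝ w x : E →L[ℝ] E) k) +
        τ ^ 2 • fderiv ℝ w x (fderiv ℝ w x ((1 + τ • fderiv ℝ w x : E →L[ℝ] E) k)) = k := by
    intro τ x hx k
    have h3 : fderiv ℝ w x (fderiv ℝ w x (fderiv ℝ w x k)) = 0 :=
      congrArg (fun A : E →L[ℝ] E => A k) (hn x hx).2.2
    simp only [ContinuousLinearMap.add_apply, ContinuousLinearMap.smul_apply,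
      ContinuousLinearMap.one_apply, map_add, map_sub, map_smul, h3]
    constructor <;> module
  have hi : ∀ τ : ℝ, ∀ x : E, x ≠ 0 →
      Function.Injective (1 + τ • fderiv ℝ w x : E →L[ℝ] E) := by
    intro τ x hx k k' he
    rw [← (hinv τ x hx k).2, he, (hinv τ x hx k').2]
  have hinj := fun τ => shear_inj h univ isPreconnected_univ trivial (fun τ _ => hi τ) τ trivial
  have hr : ∀ τ y, sinv w (τ, y) + τ • w (sinv w (τ, y)) = y := fun τ y =>
    Function.rightInverse_invFun (shear_surj h τ (hi τ)) y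
  have hl : ∀ z : ℝ × E, sinv w (G w z) = z.2 := fun z =>
    Function.leftInverse_invFun (hinj z.1) z.2
  have hne : ∀ τ y, y ≠ 0 → sinv w (τ, y) ≠ 0 := by
    intro τ y hy h0
    have := hr τ y
    rw [h0, h.zero] at this
    exact hy (by simpa using this.symm)
  have hG : ∀ τ y, G w (τ, sinv w (τ, y)) = (τ, y) := fun τ y => by simp [G, hr]
  have hs : ∀ τ y, y ≠ 0 → ContDiffAt ℝ ∞ (fun q => w (sinv w q)) (τ, y) := by
    intro τ y hy
    obtain ⟨hc, L, hL, -⟩ := G_deriv h τ (hne τ y hy) (hi τ _ (hne τ y hy))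
    have a1 := hc.to_localInverse hL (by simp)
    have a2 := (hc.hasStrictFDerivAt' hL (by simp)).eventually_right_inverse
    rw [hG] at a1 a2
    have a3 : ContDiffAt ℝ ∞ (sinv w) (τ, y) := by
      refine (contDiffAt_snd.comp _ a1).congr_of_eventuallyEq ?_
      filter_upwards [a2] with q hq
      rw [← hq, hl, hq]; rfl
    exact (h.cda (hne τ y hy)).comp _ a3
  refine ⟨⟨?_, contDiffOn_const, fun τ _ y hy => ?_⟩, hr, fun τ x hx => shear_ne h τ hx (hi τ x hx)⟩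
  · rintro ⟨τ, y⟩ hq
    exact (hs τ y hq.2).contDiffWithinAt
  set x := sinv w (τ, y) with hx
  have hx0 : x ≠ 0 := hne τ y hy
  have hD := ((hs τ y hy).differentiableAt (by simp)).hasFDerivAt
  set D := fderiv ℝ (fun q => w (sinv w q)) (τ, y)
  obtain ⟨s1, s2⟩ := split (fun τ y => w (sinv w (τ, y))) τ y D hD
  obtain ⟨-, L, hL, hLa⟩ := G_deriv h τ hx0 (hi τ _ hx0)
  have c1 : HasFDerivAt (fun z => w (sinv w (G w z))) (D.comp (L : (ℝ × E) →L[ℝ] (ℝ × E))) (τ, x) :=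
    HasFDerivAt.comp (τ, x) (g := fun q => w (sinv w q)) (by rw [hG]; exact hD) hL
  simp only [hl] at c1
  have c2 := c1.unique ((h.hasFDerivAt hx0).comp (τ, x) hasFDerivAt_snd)
  have c3 : ∀ s k, D (s, (1 + τ • fderiv ℝ w x : E →L[ℝ] E) k + s • w x) = fderiv ℝ w x k := by
    intro s k
    rw [← hLa]
    exact congrArg (fun A : (ℝ × E) →L[ℝ] E => A (s, k)) c2
  refine ⟨?_, ?_, fun l hl' => ?_, fun O hO => ?_⟩
  · rw [s1, s2, gradient_fun_const, add_zero, ContinuousLinearMap.comp_apply, ← map_add]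
    simpa using c3 1 0
  · have e : D.comp (ContinuousLinearMap.inr ℝ ℝ E) =
        fderiv ℝ w x - τ • (fderiv ℝ w x * fderiv ℝ w x) := by
      ext1 k
      have h3 : fderiv ℝ w x (fderiv ℝ w x (fderiv ℝ w x k)) = 0 :=
        congrArg (fun A : E →L[ℝ] E => A k) (hn x hx0).2.2
      have := c3 0 (k - τ • fderiv ℝ w x k + τ ^ 2 • fderiv ℝ w x (fderiv ℝ w x k))
      rw [(hinv τ x hx0 k).1] at this
      simpa [h3] using this
    rw [dvg, s2, e, ← trL_apply, map_sub, map_smul, (hn x hx0).1, (hn x hx0).2.1]; simp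
  · have : sinv w (τ, l • y) = l • x := by
      apply hinj τ
      simp only
      rw [hr, shear_smul h τ l hl', hx, hr]
    simp only
    rw [this, h.smul l hl']
  · have : sinv w (τ, O y) = O x := by
      apply hinj τ
      simp only
      rw [hr, hM O hO, ← map_smul, ← map_add, hx, hr]
    simp only
    rw [this, hM O hO]

theorem IsSol.shift {W : ℝ → E → E} (h : IsSol M univ W fun _ _ => 0) (t₀ : ℝ) :
    IsSol M univ (fun t => W (t - t₀)) fun _ _ => 0 := by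
  refine ⟨?_, contDiffOn_const, fun t _ x hx => ?_⟩
  · exact h.1.comp ((contDiff_fst.sub contDiff_const).prodMk contDiff_snd).contDiffOn
      fun z hz => ⟨trivial, hz.2⟩
  · have := h.2.2 (t - t₀) trivial x hx
    rwa [← deriv_comp_sub_const (fun s => W s x)] at this

theorem main (hM : Admissible M) (T : ℝ) (h : IsSol M (Ioo 0 T) u fun t x => c t * ‖x‖ ^ 2) :
    ∃ U : ℝ → E → E, IsSol M univ U (fun _ _ => 0) ∧
      ∀ t ∈ Ioo 0 T, ∀ x : E, x ≠ 0 → U t x = u t x := by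
  rcases le_or_gt T 0 with hT | hT
  · refine ⟨fun _ _ => 0, ⟨contDiffOn_const, contDiffOn_const, fun t _ x _ => ?_⟩,
      fun t ht => absurd (ht.1.trans ht.2) (not_lt.2 hT)⟩
    simp [dvg]
  have ht₀ : T / 2 ∈ Ioo 0 T := ⟨by linarith, by linarith⟩
  obtain ⟨h1, h2⟩ := h.hom ht₀
  obtain ⟨f1, f2, f3⟩ := free h1 h2 (h.nil hM isOpen_Ioo ht₀).2
  set w := cut (u (T / 2))
  refine ⟨_, f1.shift (T / 2), fun t ht y hy => ?_⟩
  set x := sinv w (t - T / 2, y) with hx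
  have hx0 : x ≠ 0 := by
    intro h0
    have := f2 (t - T / 2) y
    rw [← hx, h0, h1.zero] at this
    exact hy (by simpa using this.symm)
  set F : ℝ × E → E := fun z => u z.1 z.2 with hF
  let γ : ℝ → ℝ × E := fun s => (s, x + (s - T / 2) • w x)
  have hγ : ∀ s ∈ Ioo 0 T, γ s ∈ Ioo 0 T ×ˢ ({0}ᶜ : Set E) := fun s hs => ⟨hs, f3 _ x hx0⟩
  have hγd : ∀ s, HasDerivAt γ (1, w x) s := fun s =>
    (hasDerivAt_id s).prodMk (by
      simpa using (((hasDerivAt_id s).sub_const (T / 2)).smul_const (w x)).const_add x)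
  let B : ℝ → (E →L[ℝ] E) := fun s => -(fderiv ℝ F (γ s)).comp (ContinuousLinearMap.inr ℝ ℝ E)
  have he : ∀ s ∈ Ioo 0 T, HasDerivAt (fun s => F (γ s) - w x) (B s (F (γ s) - w x)) s := by
    intro s hs
    have a := (((h.cda isOpen_Ioo (hγ s hs)).differentiableAt
      (by simp)).hasFDerivAt.comp_hasDerivAt s (hγd s)).sub_const (w x)
    refine a.congr_deriv ?_
    have b := (h.facts isOpen_Ioo (hγ s hs)).1
    rw [show c (γ s).1 = 0 from (h.nil hM isOpen_Ioo hs).1] at b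
    have e : ((1, w x) : ℝ × E) = (1, F (γ s)) - (0, F (γ s) - w x) := by simp
    rw [e, map_sub]
    simp only [mul_zero, zero_smul, neg_zero] at b
    rw [show fderiv ℝ (fun z : ℝ × E => u z.1 z.2) (γ s) (1, F (γ s)) = 0 from b, zero_sub]
    rfl
  obtain ⟨a, ha0, ha⟩ := exists_between (lt_min ht.1 ht₀.1)
  obtain ⟨b, hb, hbT⟩ := exists_between (max_lt ht.2 ht₀.2)
  rw [lt_min_iff] at ha
  rw [max_lt_iff] at hb
  have hsub : Icc a b ⊆ Ioo 0 T := Icc_subset_Ioo ha0 hbT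
  have hBc : ContinuousOn B (Icc a b) := by
    intro s hs
    have := ((h.cda isOpen_Ioo (hγ s (hsub hs))).fderiv_right (m := 0)
      (by simp)).continuousAt.comp (hγd s).continuousAt
    exact (this.clm_comp continuousAt_const).neg.continuousWithinAt
  obtain ⟨K, hK⟩ := isCompact_Icc.exists_bound_of_continuousOn hBc
  have := ODE_solution_unique_of_mem_Ioo (v := fun s => B s) (s := fun _ => univ)
    (K := K.toNNReal) (t₀ := T / 2) (a := a) (b := b) (f := fun s => F (γ s) - w x)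
    (g := fun _ => 0)
    (fun s hs => ((B s).lipschitz.weaken (by
      rw [← NNReal.coe_le_coe]
      exact (hK s (Ioo_subset_Icc_self hs)).trans (Real.le_coe_toNNReal K))).lipschitzOnWith)
    ⟨ha.2, hb.2⟩ (fun s hs => ⟨he s (hsub (Ioo_subset_Icc_self hs)), trivial⟩)
    (fun s _ => ⟨by simpa using hasDerivAt_const s (0 : E), trivial⟩)
    (by simp [γ, hF, w, cut_ne _ hx0]) (show t ∈ Ioo a b from ⟨ha.1, hb.1⟩)
  simp only [γ, hF] at this
  rw [hx, f2] at this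
  exact (sub_eq_zero.1 this).symm

end

end Pool.Agent.Lib.MP_fbbbeb_an
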