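import Mathlib
import Pool.Agent.Lib.MP_fbbbeb_an.Pub

set_option autoImplicit false

namespace Pool.Agent.Lib.MP_fbbbeb_an.Pub

/-- linear maps of three-space -/
abbrev Lin : Type := E →L[ℝ] E

/-- gradient (Jacobian) of a vector field -/
noncomputable def jac (v : E → E) : E → Lin := fderiv ℝ v

/-- norm of the derivative of order `k` -/
noncomputable def dk (k : ℕ) (f : E → Lin) (x : E) : ℝ := ‖iteratedFDeriv ℝ k f x‖

/-- `|x|^k D^k f` is bounded off the origin for every `k` -/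
def Scaled (f : E → Lin) : Prop := ∀ k : ℕ, ∃ C : ℝ, ∀ x : E, x ≠ 0 → ‖x‖ ^ k * dk k f x ≤ C

/-- supremum of the norm off the origin -/
noncomputable def supn (f : E → Lin) : ENNReal := ⨆ x : {x : E // x ≠ 0}, ‖f x‖ₑ

/-- homogeneous of degree two and invariant, off the origin -/
def Pres (M : Set (E ≃ₗᵢ[ℝ] E)) (q : E → ℝ) : Prop :=
  ∀ x : E, x ≠ 0 → (∀ l : ℝ, 0 < l → q (l • x) = l ^ 2 * q x) ∧ ∀ O ∈ M, q (O x) = q x

end Pool.Agent.Lib.MP_fbbbeb_an.Pub
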